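import Pool.Agent.Helper52.KMenger

namespace Pool.Agent.Results.MP_c24ba3_gt.Q1

open Pool.Agent.Helper52.KMenger

/-- There is a (Hausdorff) topological space which is `k`-Menger but not `k`-Rothberger. -/
theorem result : ∃ (X : Type) (_ : TopologicalSpace X),
    T2Space X ∧ IsKMenger X ∧ ¬ IsKRothberger X :=
  ⟨I, cce, cce_t2, @IsStrategicallyKMenger.isKMenger I cce cce_isStrategicallyKMenger,
    cce_not_isKRothberger⟩

end Pool.Agent.Results.MP_c24ba3_gt.Q1
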