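import Pool.Agent.Helper52.KMenger

namespace Pool.Agent.Results.MP_c24ba3_gt.Q2

open Pool.Agent.Helper52.KMenger

/-- There is a (Hausdorff) topological space on which P2 has a winning strategy in the game
`G_fin(𝒦_X, 𝒦_X)` but no winning strategy in the game `G_1(𝒦_X, 𝒦_X)`. -/
theorem result : ∃ (X : Type) (_ : TopologicalSpace X),
    T2Space X ∧ IsStrategicallyKMenger X ∧ ¬ IsStrategicallyKRothberger X :=
  ⟨I, cce, cce_t2, cce_isStrategicallyKMenger,
    fun h => cce_not_isKRothberger (@IsStrategicallyKRothberger.isKRothberger I cce h)⟩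

end Pool.Agent.Results.MP_c24ba3_gt.Q2
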